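import Pool.Agent.RNB.B3Defs

/-!
# Project RN, plan C, part B3: facts on the rows (helper90)

The statements are those of `RNB_RowsStmt.lean` (helper68); further lemmas carry other names.
-/

set_option autoImplicit false

namespace RNB.B3

open Finset

variable {g K : ℕ}

theorem B_pos : 0 < B K := by unfold B; omega

theorem B_odd : Odd (B K) := ⟨K, by unfold B; ring⟩

theorem U_pos (i : ℕ) : 0 < U g K i := pow_pos B_pos _

theorem U_odd' (i : ℕ) : Odd (U g K i) := B_odd.pow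

theorem U_odd (i : ℕ) : U g K i % 2 = 1 := Int.odd_iff.1 (U_odd' i)

theorem U_succ {i : ℕ} (hi : i < g) : U g K i = B K * U g K (i + 1) := by
  unfold U
  rw [← pow_succ']
  congr 1
  omega

theorem U_dvd {i i' : ℕ} (h : i ≤ i') : U g K i' ∣ U g K i := by
  unfold U
  exact pow_dvd_pow _ (by omega)

theorem M_eq : M g K = 2 * U g K 0 := rfl

theorem M_pos : 0 < M g K := by
  rw [M_eq]; have := @U_pos g K 0; omega

theorem U_dvd_M (i : ℕ) : 2 * U g K i ∣ M g K := by
  rw [M_eq]; exact mul_dvd_mul_left 2 (U_dvd (Nat.zero_le i))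

/-- `2u ≤ aj ≤ U - u` -/
theorem aj_ge {i j : ℕ} (hj : j < K) : 2 * U g K (i + 1) ≤ aj g K i j := by
  have h0 : 0 < U g K (i + 1) := U_pos _
  unfold aj
  have : (1 : ℤ) ≤ (K : ℤ) - j := by omega
  nlinarith

theorem aj_le {i j : ℕ} (hi : i < g) : aj g K i j ≤ U g K i - U g K (i + 1) := by
  have h0 : 0 < U g K (i + 1) := U_pos _
  rw [U_succ hi]
  unfold aj B
  have : (0 : ℤ) ≤ (j : ℤ) := by omega
  nlinarith

theorem aj_even (i j : ℕ) : aj g K i j % 2 = 0 := by
  unfold aj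
  rw [mul_assoc]
  exact Int.mul_emod_right _ _

theorem aj_anti {i j j' : ℕ} (h : j' < j) : aj g K i j + 2 * U g K (i + 1) ≤ aj g K i j' := by
  unfold aj
  have h0 : 0 < U g K (i + 1) := U_pos _
  have : (j' : ℤ) + 1 ≤ j := by omega
  nlinarith

/-- Basic inequalities for the numbers of level `(i,j)`. -/
theorem nums {i j : ℕ} (hi : i < g) (hj : j < K) :
    0 < U g K (i + 1) ∧ U g K (i + 1) % 2 = 1 ∧ U g K i % 2 = 1 ∧
    2 * U g K (i + 1) ≤ aj g K i j ∧ aj g K i j + U g K (i + 1) ≤ U g K i ∧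
    aj g K i j % 2 = 0 := by
  have := @aj_le g K i j hi
  exact ⟨U_pos _, U_odd _, U_odd _, aj_ge hj, by omega, aj_even _ _⟩

/-- the same without `i < g` -/
theorem nums' {i j : ℕ} (hj : j < K) :
    0 < U g K (i + 1) ∧ U g K (i + 1) % 2 = 1 ∧ U g K i % 2 = 1 ∧ 0 < U g K i ∧
    2 * U g K (i + 1) ≤ aj g K i j ∧ aj g K i j % 2 = 0 :=
  ⟨U_pos _, U_odd _, U_odd _, U_pos _, aj_ge hj, aj_even _ _⟩

theorem aj_inj {i j j' : ℕ} (h : aj g K i j = aj g K i j') : j = j' := by
  have h0 : 0 < U g K (i + 1) := U_pos _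
  rcases lt_trichotomy j j' with h1 | h1 | h1
  · have := @aj_anti g K i _ _ h1; omega
  · exact h1
  · have := @aj_anti g K i _ _ h1; omega

theorem Rr_nonneg (i : ℕ) (y : ℤ) : 0 ≤ Rr g K i y :=
  Int.emod_nonneg _ (by have := @U_pos g K i; omega)

theorem Rr_lt (i : ℕ) (y : ℤ) : Rr g K i y < 2 * U g K i :=
  Int.emod_lt_of_pos _ (by have := @U_pos g K i; omega)

theorem Rr_eq {i : ℕ} {y r : ℤ} (h0 : 0 ≤ r) (h1 : r < 2 * U g K i) (hd : 2 * U g K i ∣ y - r) :
    Rr g K i y = r := by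
  unfold Rr
  obtain ⟨q, hq⟩ := hd
  have hy : y = r + 2 * U g K i * q := by omega
  rw [hy, Int.add_mul_emod_self_left]
  exact Int.emod_eq_of_lt h0 h1

theorem Rr_dvd (i : ℕ) (y : ℤ) : 2 * U g K i ∣ y - Rr g K i y := by
  unfold Rr
  exact Int.dvd_self_sub_emod

theorem Rr_parity (i : ℕ) (y : ℤ) : Rr g K i y % 2 = y % 2 := by
  obtain ⟨q, hq⟩ := @Rr_dvd g K i y
  have : y - Rr g K i y = 2 * (U g K i * q) := by rw [hq]; ring
  omega

/-- moving by `t` without wrapping -/
theorem Rr_add {i : ℕ} {y t : ℤ} (h0 : 0 ≤ Rr g K i y + t) (h1 : Rr g K i y + t < 2 * U g K i) :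
    Rr g K i (y + t) = Rr g K i y + t := by
  refine Rr_eq h0 h1 ?_
  have := @Rr_dvd g K i y
  rwa [show y + t - (Rr g K i y + t) = y - Rr g K i y by ring]

theorem Rr_succ (i : ℕ) (y : ℤ) : Rr g K i (y + 1) = Rr g K i y + 1 ∨
    (Rr g K i (y + 1) = 0 ∧ Rr g K i y = 2 * U g K i - 1) := by
  have hl := @Rr_lt g K i y
  have h0 := @Rr_nonneg g K i y
  by_cases hw : Rr g K i y + 1 = 2 * U g K i
  · refine Or.inr ⟨Rr_eq le_rfl (by have := @U_pos g K i; omega) ?_, by omega⟩
    have := @Rr_dvd g K i y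
    rw [show y + 1 - 0 = (y - Rr g K i y) + (Rr g K i y + 1) by ring, hw]
    exact dvd_add this (dvd_refl _)
  · exact Or.inl (Rr_add (by omega) (by omega))

theorem Rr_succ_even {i : ℕ} {y : ℤ} (hy : y % 2 = 0) :
    Rr g K i (y + 1) = Rr g K i y + 1 := by
  have h1 := @Rr_lt g K i y
  have h2 := @Rr_parity g K i y
  rcases @Rr_succ g K i y with h | h
  · exact h
  · omega

/-! ### inner, outer, newborn -/

theorem newb_iff {i j : ℕ} {y : ℤ} : newb g K i j y ↔ 0 ≤ y ∧ y < M g K ∧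
    (Rr g K i y = U g K i - 1 + aj g K i j ∨ Rr g K i y = U g K i - aj g K i j ∨
     Rr g K i y = U g K i + aj g K i j ∨ Rr g K i y = U g K i - 1 - aj g K i j) := by
  unfold newb inner outer
  tauto

theorem inner_range {i j : ℕ} {y : ℤ} (h : inner g K i j y) : 0 ≤ y ∧ y < M g K := ⟨h.1, h.2.1⟩

theorem outer_range {i j : ℕ} {y : ℤ} (h : outer g K i j y) : 0 ≤ y ∧ y < M g K := ⟨h.1, h.2.1⟩

theorem newb_range {i j : ℕ} {y : ℤ} (h : newb g K i j y) : 0 ≤ y ∧ y < M g K :=
  h.elim inner_range outer_range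

theorem young_range {i j : ℕ} {y : ℤ} (h : young g K i j y) : 0 ≤ y ∧ y < M g K := by
  obtain ⟨j', _, h⟩ := h; exact newb_range h

theorem not_inner_and_outer {i j : ℕ} {y : ℤ} (hj : j < K) (h : inner g K i j y) :
    ¬ outer g K i j y := by
  obtain ⟨h1, h2, h3, h4, h5, h6⟩ := @nums' g K i j hj
  unfold inner at h
  unfold outer
  omega

theorem not_newb_of_static {i j : ℕ} {y : ℤ} (hj : j < K)
    (h : Rr g K i y = U g K i - 1 ∨ Rr g K i y = U g K i) : ¬ newb g K i j y := by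
  obtain ⟨h1, h2, h3, h4, h5, h6⟩ := @nums' g K i j hj
  rw [newb_iff]
  omega

theorem not_lam_of_static {i j : ℕ} {y : ℤ} (hj : j < K)
    (h : Rr g K i y = U g K i - 1 ∨ Rr g K i y = U g K i) : ¬ lam g K i j y := by
  obtain ⟨h1, h2, h3, h4, h5, h6⟩ := @nums' g K i j hj
  unfold lam
  omega

theorem not_lam_of_inner {i j : ℕ} {y : ℤ} (hi : i < g) (hj : j < K) (h : inner g K i j y) :
    ¬ lam g K i j y := by
  obtain ⟨h1, h2, h3, h4, h5, h6⟩ := nums hi hj
  obtain ⟨_, _, h⟩ := h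
  unfold lam
  omega

theorem lam_of_outer {i j : ℕ} {y : ℤ} (_hi : i < g) (_hj : j < K) (h : outer g K i j y) :
    lam g K i j y := by
  obtain ⟨_, _, h⟩ := h
  unfold lam
  omega

theorem lam_of_newb_lt {i j j' : ℕ} {y : ℤ} (h' : j' < j) (h : newb g K i j' y) :
    lam g K i j y := by
  have h0 : 0 < U g K (i + 1) := U_pos _
  have h1 := @aj_anti g K i j j' h'
  obtain ⟨_, _, h⟩ := newb_iff.1 h
  unfold lam
  omega

theorem lam_of_young {i j : ℕ} {y : ℤ} (_hi : i < g) (_hj : j < K) (h : young g K i j y) :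
    lam g K i j y := by
  obtain ⟨j', hj', h⟩ := h; exact lam_of_newb_lt hj' h

theorem newb_unique {i j j' : ℕ} {y : ℤ} (hj : j < K) (hj' : j' < K)
    (h : newb g K i j y) (h' : newb g K i j' y) : j = j' := by
  obtain ⟨h1, h2, h3, h4, h5, h6⟩ := @nums' g K i j hj
  obtain ⟨_, _, _, h4', h5', h6'⟩ := @nums' g K i j' hj'
  obtain ⟨_, _, h⟩ := newb_iff.1 h
  obtain ⟨_, _, h'⟩ := newb_iff.1 h'
  apply @aj_inj g K i
  omega

theorem not_newb_of_young {i j : ℕ} {y : ℤ} (hj : j < K) (h : young g K i j y) :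
    ¬ newb g K i j y := by
  obtain ⟨j', hj', h⟩ := h
  intro h'
  have := newb_unique hj (by omega) h' h
  omega

/-- in one generation the newborn rows of a block determine the step -/
theorem newb_unique_block {i j j' : ℕ} {y y' : ℤ} (hj : j < K) (hj' : j' < K)
    (h : newb g K i j y) (h' : newb g K i j' y') (hy : y / 2 = y' / 2) : j = j' := by
  obtain ⟨h1, h2, h3, h4, h5, h6⟩ := @nums' g K i j hj
  obtain ⟨_, _, _, h4', h5', h6'⟩ := @nums' g K i j' hj'
  obtain ⟨_, _, h⟩ := newb_iff.1 h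
  obtain ⟨_, _, h'⟩ := newb_iff.1 h'
  apply @aj_inj g K i
  have key : Rr g K i y / 2 = Rr g K i y' / 2 := by
    rcases (by omega : y' = y ∨ (y % 2 = 0 ∧ y' = y + 1) ∨ (y' % 2 = 0 ∧ y = y' + 1))
      with e | ⟨e, e'⟩ | ⟨e, e'⟩
    · rw [e]
    · rw [e', Rr_succ_even e]
      have := @Rr_parity g K i y
      omega
    · rw [e', Rr_succ_even e]
      have := @Rr_parity g K i y'
      omega
  omega

/-- rows born in generation `i` are rows of static blocks in all later generations -/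
theorem newb_static {i i' j : ℕ} {y : ℤ} (hi : i < g) (hii : i < i')
    (h : newb g K i j y) :
    (y % 2 = 0 → Rr g K i' y = U g K i' - 1) ∧ (y % 2 = 1 → Rr g K i' y = U g K i') := by
  have h3 := @U_odd g K i
  have h6 := @aj_even g K i j
  obtain ⟨_, _, h⟩ := newb_iff.1 h
  have hU' : 0 < U g K i' := U_pos _
  obtain ⟨q, hq⟩ := @U_dvd g K (i + 1) i' (by omega)
  have hqo : q % 2 = 1 := by
    have ho : Odd (U g K i' * q) := by rw [← hq]; exact U_odd' _
    exact Int.odd_iff.1 (Int.odd_mul.1 ho).2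
  obtain ⟨p, hp⟩ := @Rr_dvd g K i y
  have hUi : U g K i = B K * U g K (i + 1) := U_succ hi
  have hmod := @Rr_parity g K i y
  -- y = odd multiple of U (i+1), or that minus one
  have key : ∃ n : ℤ, (y % 2 = 0 → y = (2 * n + 1) * U g K (i + 1) - 1) ∧
      (y % 2 = 1 → y = (2 * n + 1) * U g K (i + 1)) := by
    rcases h with h | h | h | h
    · refine ⟨K + (K - j) + B K * p, fun _ => ?_, fun hy => by omega⟩
      have : y = 2 * U g K i * p + (U g K i - 1 + aj g K i j) := by omega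
      rw [this, hUi]; unfold aj B; ring
    · refine ⟨K - (K - j) + B K * p, fun hy => by omega, fun _ => ?_⟩
      have : y = 2 * U g K i * p + (U g K i - aj g K i j) := by omega
      rw [this, hUi]; unfold aj B; ring
    · refine ⟨K + (K - j) + B K * p, fun hy => by omega, fun _ => ?_⟩
      have : y = 2 * U g K i * p + (U g K i + aj g K i j) := by omega
      rw [this, hUi]; unfold aj B; ring
    · refine ⟨K - (K - j) + B K * p, fun _ => ?_, fun hy => by omega⟩
      have : y = 2 * U g K i * p + (U g K i - 1 - aj g K i j) := by omega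
      rw [this, hUi]; unfold aj B; ring
  obtain ⟨n, hn0, hn1⟩ := key
  obtain ⟨m, hm⟩ : ∃ m, q = 2 * m + 1 := ⟨q / 2, by omega⟩
  have hval : (2 * n + 1) * U g K (i + 1) = U g K i' + 2 * U g K i' * (2 * n * m + n + m) := by
    rw [hq, hm]; ring
  refine ⟨fun hy => Rr_eq (by omega) (by omega) ?_, fun hy => Rr_eq (by omega) (by omega) ?_⟩
  · rw [hn0 hy, hval]
    exact ⟨2 * n * m + n + m, by ring⟩
  · rw [hn1 hy, hval]
    exact ⟨2 * n * m + n + m, by ring⟩

/-- a row born in an earlier generation is static -/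
theorem static_of_newb {i i' j' : ℕ} {y : ℤ} (hi : i' < i) (hig : i < g)
    (h : newb g K i' j' y) :
    (y % 2 = 0 ∧ Rr g K i y = U g K i - 1) ∨ (y % 2 = 1 ∧ Rr g K i y = U g K i) := by
  have := newb_static (by omega : i' < g) hi h
  rcases Int.emod_two_eq_zero_or_one y with hy | hy
  · exact Or.inl ⟨hy, this.1 hy⟩
  · exact Or.inr ⟨hy, this.2 hy⟩

/-- both rows of a block -/
theorem newb_static_block {i i' j : ℕ} {y y' : ℤ} (hi : i < g) (hii : i < i')
    (h : newb g K i j y) (hy : y / 2 = y' / 2) :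
    Rr g K i' y' = U g K i' - 1 ∨ Rr g K i' y' = U g K i' := by
  have hs := newb_static hi hii h
  have hU := @U_pos g K i'
  have hUo := @U_odd g K i'
  rcases (by omega : y' = y ∨ (y % 2 = 0 ∧ y' = y + 1) ∨ (y' % 2 = 0 ∧ y = y' + 1 ∧ y % 2 = 1))
      with e | ⟨e, e'⟩ | ⟨e, e', e''⟩
  · rw [e]
    rcases Int.emod_two_eq_zero_or_one y with hy | hy
    · exact Or.inl (hs.1 hy)
    · exact Or.inr (hs.2 hy)
  · rw [e', Rr_succ_even e, hs.1 e]; right; ring
  · have h1 := @Rr_succ_even g K i' y' e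
    rw [← e', hs.2 e''] at h1
    left; omega

/-- the level at which a block is newborn is unique -/
theorem newb_level_unique {i i' j j' : ℕ} {y y' : ℤ} (hi : i < g) (hj : j < K) (hi' : i' < g)
    (hj' : j' < K) (h : newb g K i j y) (h' : newb g K i' j' y') (hy : y / 2 = y' / 2) :
    i = i' ∧ j = j' := by
  rcases lt_trichotomy i i' with e | e | e
  · exact absurd h' (not_newb_of_static hj' (newb_static_block hi e h hy))
  · subst e
    exact ⟨rfl, newb_unique_block hj hj' h h' hy⟩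
  · exact absurd h (not_newb_of_static hj (newb_static_block hi' e h' hy.symm))

/-- `lam` is constant except at the converters -/
theorem lam_succ {i j : ℕ} {y : ℤ} (hi : i < g) (hj : j < K)
    (h1 : Rr g K i y ≠ U g K i - 1 + aj g K i j) (h2 : Rr g K i y ≠ U g K i - 1 - aj g K i j) :
    lam g K i j y ↔ lam g K i j (y + 1) := by
  obtain ⟨n1, n2, n3, n4, n5, n6⟩ := nums hi hj
  have hl := @Rr_lt g K i y
  have h0 := @Rr_nonneg g K i y
  unfold lam
  rcases @Rr_succ g K i y with h | ⟨h, h'⟩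
  · rw [h]; omega
  · rw [h]; omega

theorem lam_up {i j : ℕ} {y : ℤ} (hi : i < g) (hj : j < K)
    (h1 : Rr g K i y = U g K i - 1 + aj g K i j) :
    ¬ lam g K i j y ∧ lam g K i j (y + 1) := by
  obtain ⟨n1, n2, n3, n4, n5, n6⟩ := nums hi hj
  unfold lam
  rcases @Rr_succ g K i y with h | ⟨h, h'⟩
  · rw [h]; omega
  · rw [h]; omega

theorem lam_down {i j : ℕ} {y : ℤ} (hi : i < g) (hj : j < K)
    (h1 : Rr g K i y = U g K i - 1 - aj g K i j) :
    lam g K i j y ∧ ¬ lam g K i j (y + 1) := by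
  obtain ⟨n1, n2, n3, n4, n5, n6⟩ := nums hi hj
  unfold lam
  rcases @Rr_succ g K i y with h | ⟨h, h'⟩
  · rw [h]; omega
  · omega

/-! ### strands -/

/-- tip row of a leaf with home row `y`, generation `i` -/
def tipRow (g K i : ℕ) (y : ℤ) : ℤ :=
  if y % 2 = 1 then y + (U g K (i + 1) - 1) else y - (U g K (i + 1) - 1)

theorem tipRow_odd {i : ℕ} {y : ℤ} (h : y % 2 = 1) :
    tipRow g K i y = y + (U g K (i + 1) - 1) := if_pos h

theorem tipRow_even {i : ℕ} {y : ℤ} (h : y % 2 = 0) :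
    tipRow g K i y = y - (U g K (i + 1) - 1) := if_neg (by omega)

/-- the relative rows of a strand -/
theorem strand_Rr {i jb : ℕ} {y y' : ℤ} (hi : i < g) (hjb : jb < K) (h : newb g K i jb y)
    (h1 : min y (tipRow g K i y) ≤ y') (h2 : y' ≤ max y (tipRow g K i y)) :
    Rr g K i y' = Rr g K i y + (y' - y) ∧
    (y % 2 = 1 ∧ y ≤ y' ∧ y' ≤ y + (U g K (i + 1) - 1) ∧
      (Rr g K i y = U g K i + aj g K i jb ∨ Rr g K i y = U g K i - aj g K i jb) ∨
     y % 2 = 0 ∧ y - (U g K (i + 1) - 1) ≤ y' ∧ y' ≤ y ∧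
      (Rr g K i y = U g K i - 1 + aj g K i jb ∨ Rr g K i y = U g K i - 1 - aj g K i jb)) := by
  obtain ⟨n1, n2, n3, n4, n5, n6⟩ := nums hi hjb
  have hm := @Rr_parity g K i y
  obtain ⟨_, _, h⟩ := newb_iff.1 h
  have hcase : (y % 2 = 1 ∧ y ≤ y' ∧ y' ≤ y + (U g K (i + 1) - 1) ∧
      (Rr g K i y = U g K i + aj g K i jb ∨ Rr g K i y = U g K i - aj g K i jb) ∨
     y % 2 = 0 ∧ y - (U g K (i + 1) - 1) ≤ y' ∧ y' ≤ y ∧
      (Rr g K i y = U g K i - 1 + aj g K i jb ∨ Rr g K i y = U g K i - 1 - aj g K i jb)) := by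
    rcases Int.emod_two_eq_zero_or_one y with hy | hy
    · rw [tipRow_even hy] at h1 h2
      right
      refine ⟨hy, ?_, ?_, ?_⟩
      · rw [min_eq_right (by omega)] at h1; exact h1
      · rw [max_eq_left (by omega)] at h2; exact h2
      · omega
    · rw [tipRow_odd hy] at h1 h2
      left
      refine ⟨hy, ?_, ?_, ?_⟩
      · rw [min_eq_left (by omega)] at h1; exact h1
      · rw [max_eq_right (by omega)] at h2; exact h2
      · omega
  refine ⟨?_, hcase⟩
  have := @Rr_add g K i y (y' - y)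
  rw [show y + (y' - y) = y' by ring] at this
  exact this (by omega) (by omega)

theorem tipRow_mem {i : ℕ} {y : ℤ} : min y (tipRow g K i y) ≤ tipRow g K i y ∧
    tipRow g K i y ≤ max y (tipRow g K i y) := ⟨min_le_right _ _, le_max_right _ _⟩

theorem strand_range {i jb : ℕ} {y y' : ℤ} (hi : i < g) (hjb : jb < K) (h : newb g K i jb y)
    (h1 : min y (tipRow g K i y) ≤ y') (h2 : y' ≤ max y (tipRow g K i y)) :
    0 ≤ y' ∧ y' < M g K := by
  obtain ⟨n1, n2, n3, n4, n5, n6⟩ := nums hi hjb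
  obtain ⟨hR, hc⟩ := strand_Rr hi hjb h h1 h2
  have hr := newb_range h
  have hU := @U_pos g K i
  have l0 := @Rr_lt g K i y
  have l1 := @Rr_nonneg g K i y
  obtain ⟨p, hp⟩ := @Rr_dvd g K i y
  obtain ⟨n, hn⟩ := @U_dvd_M g K i
  have h0p : 0 ≤ p := by
    by_contra hc
    have : p + 1 ≤ 0 := by omega
    have : 2 * U g K i * (p + 1) ≤ 0 := by nlinarith
    nlinarith
  have hpn : p + 1 ≤ n := by
    by_contra hc
    have : n ≤ p := by omega
    have : 2 * U g K i * n ≤ 2 * U g K i * p := by nlinarith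
    omega
  have h8 : 2 * U g K i * (p + 1) ≤ M g K := by rw [hn]; nlinarith
  have h9 : 0 ≤ 2 * U g K i * p := by positivity
  have h10 : 2 * U g K i * (p + 1) = 2 * U g K i * p + 2 * U g K i := by ring
  omega

theorem tipRow_range {i j : ℕ} {y : ℤ} (hi : i < g) (hj : j < K) (h : newb g K i j y) :
    0 ≤ tipRow g K i y ∧ tipRow g K i y < M g K :=
  strand_range hi hj h tipRow_mem.1 tipRow_mem.2

/-- rows of a strand at later steps of the same generation -/
theorem strand_lam {i jb j : ℕ} {y y' : ℤ} (hi : i < g) (hj : j < K) (hjb : jb < j)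
    (h : newb g K i jb y)
    (h1 : min y (tipRow g K i y) ≤ y') (h2 : y' ≤ max y (tipRow g K i y)) :
    lam g K i j y' ∧ ¬ inner g K i j y' := by
  obtain ⟨n1, n2, n3, n4, n5, n6⟩ := nums hi hj
  obtain ⟨m1, m2, m3, m4, m5, m6⟩ := nums hi (by omega : jb < K)
  have h7 := @aj_anti g K i j jb hjb
  obtain ⟨hR, hc⟩ := strand_Rr hi (by omega) h h1 h2
  have hl : lam g K i j y' := by
    unfold lam
    omega
  exact ⟨hl, fun h' => not_lam_of_inner hi hj h' hl⟩

/-- rows of a strand are not born in this generation, except the home row -/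
theorem strand_not_newb {i jb j : ℕ} {y y' : ℤ} (hi : i < g) (hjb : jb < K) (hj : j < K)
    (h : newb g K i jb y) (hne : y' ≠ y)
    (h1 : min y (tipRow g K i y) ≤ y') (h2 : y' ≤ max y (tipRow g K i y)) :
    ¬ newb g K i j y' := by
  obtain ⟨n1, n2, n3, n4, n5, n6⟩ := nums hi hj
  obtain ⟨m1, m2, m3, m4, m5, m6⟩ := nums hi hjb
  obtain ⟨hR, hc⟩ := strand_Rr hi hjb h h1 h2
  rw [newb_iff]
  rcases lt_trichotomy j jb with e | e | e
  · have h7 := @aj_anti g K i jb j e
    omega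
  · subst e
    omega
  · have h7 := @aj_anti g K i j jb e
    omega

/-- rows of a strand are not static -/
theorem strand_not_static {i jb : ℕ} {y y' : ℤ} (hi : i < g) (hjb : jb < K)
    (h : newb g K i jb y)
    (h1 : min y (tipRow g K i y) ≤ y') (h2 : y' ≤ max y (tipRow g K i y)) :
    Rr g K i y' ≠ U g K i - 1 ∧ Rr g K i y' ≠ U g K i := by
  obtain ⟨m1, m2, m3, m4, m5, m6⟩ := nums hi hjb
  obtain ⟨hR, hc⟩ := strand_Rr hi hjb h h1 h2
  omega

/-- the tip of a strand in a later generation -/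
theorem tip_Rr {i i' j0 : ℕ} {y0 : ℤ} (hi : i < g) (hii : i < i')
    (h : newb g K i j0 y0) :
    (y0 % 2 = 0 → Rr g K i' (y0 - (U g K (i + 1) - 1)) = 0) ∧
    (y0 % 2 = 1 → Rr g K i' (y0 + (U g K (i + 1) - 1)) = 2 * U g K i' - 1) := by
  have hs := newb_static hi hii h
  have hU' : 0 < U g K i' := U_pos _
  obtain ⟨q, hq⟩ := @U_dvd g K (i + 1) i' (by omega)
  have hqo : q % 2 = 1 := by
    have ho : Odd (U g K i' * q) := by rw [← hq]; exact U_odd' _
    exact Int.odd_iff.1 (Int.odd_mul.1 ho).2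
  obtain ⟨m, hm⟩ : ∃ m, q = 2 * m + 1 := ⟨q / 2, by omega⟩
  obtain ⟨p, hp⟩ := @Rr_dvd g K i' y0
  constructor
  · intro hy
    rw [hs.1 hy] at hp
    refine Rr_eq le_rfl (by omega) ⟨p - m, ?_⟩
    have : y0 = 2 * U g K i' * p + (U g K i' - 1) := by omega
    rw [this, hq, hm]; ring
  · intro hy
    rw [hs.2 hy] at hp
    refine Rr_eq (by omega) (by omega) ⟨p + m, ?_⟩
    have : y0 = 2 * U g K i' * p + U g K i' := by omega
    rw [this, hq, hm]; ring

/-- the tip row at the later generations -/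
theorem tip_lam {ib jb i j : ℕ} {y : ℤ} (hib : ib < i) (hi : i < g) (hj : j < K) (_hjb : jb < K)
    (h : newb g K ib jb y) :
    lam g K i j (tipRow g K ib y) ∧ ¬ inner g K i j (tipRow g K ib y) := by
  obtain ⟨h1, h2, h3, h4, h5, h6⟩ := nums hi hj
  have ht := tip_Rr (by omega : ib < g) hib h
  have hl : lam g K i j (tipRow g K ib y) := by
    unfold lam
    rcases Int.emod_two_eq_zero_or_one y with hy | hy
    · rw [tipRow_even hy, ht.1 hy]; omega
    · rw [tipRow_odd hy, ht.2 hy]; omega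
  exact ⟨hl, fun h' => not_lam_of_inner hi hj h' hl⟩

end RNB.B3
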