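import Pool.Agent.H90.RNB.Rows
import Pool.Agent.RNB.B3H
import Pool.Agent.H57.RN.B3Leaf

/-!
# Project RN, plan C, part B3: the vertical conditions `V_pos`, `V_neg`, `V_flat` (helper90)
-/

set_option autoImplicit false

namespace RNB.B3

open Finset

variable {g K : ℕ}

/-! ### columns -/

theorem v_old_succ {i : ℕ} {x : ℤ} (hi : i < g) (h : old g K i x) : old g K (i + 1) x := by
  obtain ⟨p, h1, h2, h3⟩ := h
  have hs := h_sg_pos (g := g) (K := K)
  have hE := h_E_nonneg (g := g) (K := K)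
  have hB := pow_pos (B_pos (K := K)) g
  refine ⟨p * sg g K, ?_, ?_, ?_⟩
  · rw [Hn]; nlinarith
  · rw [Hn]; nlinarith
  · rw [h3, h_S_succ hi]; ring

theorem v_old_mono {i i' : ℕ} {x : ℤ} (hii : i ≤ i') (hi : i' ≤ g) (h : old g K i x) :
    old g K i' x := by
  induction i', hii using Nat.le_induction with
  | base => exact h
  | succ n hn ih => exact v_old_succ (by omega) (ih (by omega))

theorem v_dvd {x : ℤ} {d : LData} (h : IsLeaf g K x d) : S g K (d.i + 1) ∣ x := by
  obtain ⟨hi, hj, h⟩ := h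
  have hS := h_S_succ (K := K) hi
  rcases h with ⟨-, -, p, -, -, h⟩ | ⟨-, -, p, -, -, h⟩ | ⟨-, a, -, h⟩
  · exact ⟨p * sg g K - (d.y / 2 + 1), by rw [hS] at h; linarith⟩
  · exact ⟨p * sg g K + (d.y / 2 + 1), by rw [hS] at h; linarith⟩
  · rw [h]; unfold pa
    exact Dvd.dvd.mul_left (dvd_mul_left _ _) _

theorem v_old_of_leaf {x : ℤ} {d : LData} {i : ℕ} (h : IsLeaf g K x d) (hi : d.i < i)
    (hg : i ≤ g) : old g K i x := by
  have h1 := H57B3.range_of h
  obtain ⟨p, hp⟩ := v_dvd h
  have hs := h_S_pos (g := g) (K := K) (d.i + 1)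
  refine v_old_mono (i := d.i + 1) (by omega) hg ⟨p, ?_, ?_, by rw [hp]; ring⟩
  · rw [hp, abs_mul, abs_of_pos hs, mul_comm] at h1
    exact (abs_le.1 (le_of_mul_le_mul_right h1 hs)).1
  · rw [hp, abs_mul, abs_of_pos hs, mul_comm] at h1
    exact (abs_le.1 (le_of_mul_le_mul_right h1 hs)).2

theorem v_not_old {x : ℤ} {d : LData} (h : IsLeaf g K x d) : ¬ old g K d.i x := by
  rintro ⟨q, hq1, hq2, hq⟩
  obtain ⟨hi, hj, h⟩ := h
  have hS := h_S_succ (K := K) hi
  have hs := h_S_pos (g := g) (K := K) (d.i + 1)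
  have hsg := h_sg_pos (g := g) (K := K)
  have hB := pow_pos (B_pos (K := K)) g
  have hkey : ∀ (p y : ℤ), 0 ≤ y → y < M g K → p * sg g K ≠ q * sg g K + (y / 2 + 1) ∧
      p * sg g K ≠ q * sg g K - (y / 2 + 1) := by
    intro p y hy0 hy1
    unfold M at hy1
    have h1 : 1 ≤ y / 2 + 1 ∧ y / 2 + 1 ≤ B K ^ g := by omega
    have h2 : y / 2 + 1 < sg g K := by unfold sg; omega
    constructor
    · intro he
      have h3 : (p - q) * sg g K = y / 2 + 1 := by linarith
      rcases (by omega : p - q ≤ 0 ∨ 1 ≤ p - q) with h4 | h4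
      · nlinarith
      · nlinarith
    · intro he
      have h3 : (q - p) * sg g K = y / 2 + 1 := by linarith
      rcases (by omega : q - p ≤ 0 ∨ 1 ≤ q - p) with h4 | h4
      · nlinarith
      · nlinarith
  rcases h with ⟨-, ⟨hy1, hy2, -⟩, p, hp1, hp2, h⟩ | ⟨-, ⟨hy1, hy2, -⟩, p, hp1, hp2, h⟩ |
    ⟨hy, a, ha, h⟩
  · rw [hq, hS] at h
    apply (hkey p d.y hy1 hy2).1
    have : (q * sg g K + (d.y / 2 + 1)) * S g K (d.i + 1) = (p * sg g K) * S g K (d.i + 1) := by
      linarith
    exact (mul_right_cancel₀ hs.ne' this).symm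
  · rw [hq, hS] at h
    apply (hkey p d.y hy1 hy2).2
    have : (q * sg g K - (d.y / 2 + 1)) * S g K (d.i + 1) = (p * sg g K) * S g K (d.i + 1) := by
      linarith
    exact (mul_right_cancel₀ hs.ne' this).symm
  · have hy' := young_range hy
    have hpa : Hn g K d.i * S g K d.i < pa g K d.i d.j d.y a := by
      unfold pa
      rw [hS]
      have hM := M_pos (g := g) (K := K)
      have h0 : 0 ≤ ((d.j : ℤ) * M g K + d.y) * 2 ^ K := by
        have := hy'.1
        positivity
      have h1 : Hn g K d.i * (sg g K * S g K (d.i + 1)) = (sg g K * Hn g K d.i) *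
        S g K (d.i + 1) := by ring
      rw [h1]
      apply mul_lt_mul_of_pos_right _ hs
      have : (0 : ℤ) ≤ a := by positivity
      linarith
    have hSi := h_S_pos (g := g) (K := K) d.i
    have hx : |x| ≤ Hn g K d.i * S g K d.i := by
      rw [hq, abs_mul, abs_of_pos hSi]
      exact mul_le_mul_of_nonneg_right (abs_le.2 ⟨hq1, hq2⟩) hSi.le
    have hx' : |x| = |pa g K d.i d.j d.y a| := by
      rw [h, abs_mul]
      split <;> simp
    rw [hx'] at hx
    have := le_abs_self (pa g K d.i d.j d.y a)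
    linarith

theorem v_lf_not_old {i j : ℕ} {x : ℤ} (hj : j < K) (h : old g K i x) :
    ¬ (lf g K x ∧ birth g K x = i * K + j) := by
  rintro ⟨h1, h2⟩
  have hd := h_isLeaf_dat h1
  have hi : (dat g K x).i = i := by
    have := congrArg (· / K) h2
    simp only [birth, h_div hd.2.1, h_div hj] at this
    exact this
  exact v_not_old hd (by rw [hi]; exact h)

/-! ### the flows -/

theorem v_FV {i j : ℕ} (hi : i < g) (hj : j < K) (x y : ℤ) :
    FV g K (i * K + j) x y = FVc g K i j x y + FVs g K (i * K + j) x y := by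
  unfold FV
  rw [if_pos (h_lt_level hi hj), h_div hj, h_mod hj]

theorem v_FVs_zero {τ : ℕ} {x y : ℤ} (h : ¬ (lf g K x ∧ birth g K x = τ)) :
    FVs g K τ x y = 0 := by
  unfold FVs
  rw [h_ind_false (fun h' => h ⟨h'.1, h'.2.1⟩), zero_mul]

theorem v_FVc_zero {i j : ℕ} {x y : ℤ} (h : ¬ old g K i x) : FVc g K i j x y = 0 := by
  unfold FVc
  rw [h_ind_false (fun h' => h h'.1), h_ind_false (fun h' => h h'.1), sub_zero]

/-- the cases of the converter flow -/
theorem v_FVc_cases {i j : ℕ} (hj : j < K) (x y : ℤ) :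
    (FVc g K i j x y = 0 ∧ (old g K i x → 0 ≤ y → y < M g K →
      Rr g K i y ≠ U g K i - 1 + aj g K i j ∧ Rr g K i y ≠ U g K i - 1 - aj g K i j)) ∨
    (FVc g K i j x y = 1 ∧ old g K i x ∧ 0 ≤ y ∧ y < M g K ∧
      Rr g K i y = U g K i - 1 + aj g K i j) ∨
    (FVc g K i j x y = -1 ∧ old g K i x ∧ 0 ≤ y ∧ y < M g K ∧
      Rr g K i y = U g K i - 1 - aj g K i j) := by
  obtain ⟨h1, h2, h3, h4, h5, h6⟩ := @nums' g K i j hj
  unfold FVc
  by_cases ha : old g K i x ∧ 0 ≤ y ∧ y < M g K ∧ Rr g K i y = U g K i - 1 + aj g K i j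
  · have hb : ¬ (old g K i x ∧ 0 ≤ y ∧ y < M g K ∧ Rr g K i y = U g K i - 1 - aj g K i j) := by
      rintro ⟨-, -, -, h⟩
      have := ha.2.2.2
      omega
    rw [h_ind_true ha, h_ind_false hb]
    exact Or.inr (Or.inl ⟨by norm_num, ha⟩)
  · by_cases hb : old g K i x ∧ 0 ≤ y ∧ y < M g K ∧ Rr g K i y = U g K i - 1 - aj g K i j
    · rw [h_ind_false ha, h_ind_true hb]
      exact Or.inr (Or.inr ⟨by norm_num, hb⟩)
    · rw [h_ind_false ha, h_ind_false hb]
      exact Or.inl ⟨by norm_num, fun h1 h2 h3 => ⟨fun h4 => ha ⟨h1, h2, h3, h4⟩,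
        fun h4 => hb ⟨h1, h2, h3, h4⟩⟩⟩

/-- the cases of the strand flow -/
theorem v_FVs_cases (τ : ℕ) (x y : ℤ) :
    FVs g K τ x y = 0 ∨
    (lf g K x ∧ birth g K x = τ ∧ min (home g K x) (tip g K x) ≤ y ∧
      y < max (home g K x) (tip g K x) ∧
      FVs g K τ x y = if up g K x = snk g K x then 1 else -1) := by
  unfold FVs
  by_cases ha : lf g K x ∧ birth g K x = τ ∧ min (home g K x) (tip g K x) ≤ y ∧
      y < max (home g K x) (tip g K x)
  · rw [h_ind_true ha, one_mul]
    exact Or.inr ⟨ha.1, ha.2.1, ha.2.2.1, ha.2.2.2, rfl⟩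
  · rw [h_ind_false ha, zero_mul]
    exact Or.inl rfl

/-! ### the potentials -/

/-- potential in an old column -/
theorem v_Xp_old {i j : ℕ} (hi : i < g) (hj : j < K) {x : ℤ} (y : ℤ) (h : old g K i x) :
    (lam g K i j y → Xp g K (i * K + j) x y = psi g K (i * K + j) x) ∧
    (¬ lam g K i j y → Xp g K (i * K + j) x y = (s0 g K : ℝ)) := by
  have hX : Xp g K (i * K + j) x y = P0 g K i j x y := by
    unfold Xp
    rw [if_neg (fun h' => v_lf_not_old hj h ⟨h'.1, h'.2.1⟩), h_div hj, h_mod hj]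
  rw [hX]
  constructor
  · intro hl
    exact h_P0_lam (fun h' => not_lam_of_inner hi hj h' hl) hl
  · intro hl
    by_cases hin : inner g K i j y
    · unfold P0
      rw [if_pos hin]
      obtain ⟨p, -, -, hp⟩ := h
      have : (-x) % S g K i = 0 := by
        apply Int.emod_eq_zero_of_dvd
        exact ⟨-p, by rw [hp]; ring⟩
      rw [this, sub_zero]
    · exact h_P0_static hin hl

/-- potential on the strand of the leaf of `x` at the level of its birth -/
theorem v_Xp_strand {τ : ℕ} {x y : ℤ} (h : lf g K x) (hb : birth g K x = τ)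
    (h1 : min (home g K x) (tip g K x) ≤ y) (h2 : y ≤ max (home g K x) (tip g K x)) :
    Xp g K τ x y = P0 g K (τ / K) (τ % K) x (home g K x) +
      (if snk g K x then (|y - home g K x| : ℤ) / (4 * (M g K : ℝ))
        else -((|y - home g K x| : ℤ) : ℝ)) := by
  unfold Xp
  rw [if_pos ⟨h, hb, h1, h2⟩]

theorem v_s0_lt_psi {τ : ℕ} (hτ : τ < g * K) {x : ℤ} (hx : -W g K ≤ x) :
    (s0 g K : ℝ) < psi g K τ x := by
  have h := (h_psi_bounds hτ x).1
  have h1 : (-(W g K : ℝ)) ≤ (x : ℝ) := by exact_mod_cast hx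
  unfold s0
  push_cast
  linarith

theorem v_old_range {i : ℕ} (hi : i < g) {x : ℤ} (h : old g K i x) :
    -W g K ≤ x ∧ x ≤ W g K := by
  obtain ⟨p, h1, h2, h3⟩ := h
  have hS := h_S_pos (g := g) (K := K) i
  have hW := H57B3.HS_le_W (g := g) (K := K) (i := i) (by omega)
  have hx : |x| ≤ W g K := by
    rw [h3, abs_mul, abs_of_pos hS]
    exact (mul_le_mul_of_nonneg_right (abs_le.2 ⟨h1, h2⟩) hS.le).trans hW
  exact abs_le.1 hx

/-- home row and tip row in terms of `up` -/
theorem v_tip {x : ℤ} : (up g K x = true → home g K x ≤ tip g K x) ∧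
    (up g K x = false → tip g K x ≤ home g K x) := by
  have := @U_pos g K ((dat g K x).i + 1)
  unfold tip
  constructor
  · intro h; rw [if_pos h]; omega
  · intro h; rw [if_neg (by simp [h])]; omega

theorem v_tipRow (x : ℤ) : tip g K x = tipRow g K (dat g K x).i (home g K x) := by
  unfold tip tipRow up
  simp only [decide_eq_true_eq]

/-- the strand flow goes upwards in the potential -/
theorem v_strand_lt {τ : ℕ} {x y : ℤ} (h : lf g K x) (hb : birth g K x = τ)
    (h1 : min (home g K x) (tip g K x) ≤ y) (h2 : y < max (home g K x) (tip g K x)) :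
    (up g K x = snk g K x → Xp g K τ x y < Xp g K τ x (y + 1)) ∧
    (up g K x ≠ snk g K x → Xp g K τ x (y + 1) < Xp g K τ x y) := by
  rw [v_Xp_strand h hb h1 h2.le, v_Xp_strand h hb (y := y + 1) (by omega) (by omega)]
  have hM : (0 : ℝ) < 4 * (M g K : ℝ) := by
    have := @M_pos g K
    have : (0 : ℝ) < (M g K : ℝ) := by exact_mod_cast this
    linarith
  have ht := @v_tip g K x
  rcases hu : up g K x with _ | _
  · have ht' := ht.2 hu
    have e1 : |y - home g K x| = home g K x - y := by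
      rw [abs_of_nonpos (by rw [max_eq_left ht'] at h2; omega)]; ring
    have e2 : |y + 1 - home g K x| = home g K x - y - 1 := by
      rw [abs_of_nonpos (by rw [max_eq_left ht'] at h2; omega)]; ring
    rw [e1, e2]
    push_cast
    constructor
    · intro hs
      rw [← hs]
      simp only [Bool.false_eq_true, if_false]
      linarith
    · intro hs
      have hs' : snk g K x = true := by
        rcases hk : snk g K x with _ | _
        · exact absurd hk.symm hs
        · rfl
      rw [hs']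
      simp only [if_true]
      have : ((home g K x : ℝ) - y - 1) / (4 * (M g K : ℝ)) <
        ((home g K x : ℝ) - y) / (4 * (M g K : ℝ)) := by
        apply div_lt_div_of_pos_right _ hM
        linarith
      linarith
  · have ht' := ht.1 hu
    have e1 : |y - home g K x| = y - home g K x := by
      rw [abs_of_nonneg (by rw [min_eq_left ht'] at h1; omega)]
    have e2 : |y + 1 - home g K x| = y - home g K x + 1 := by
      rw [abs_of_nonneg (by rw [min_eq_left ht'] at h1; omega)]; ring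
    rw [e1, e2]
    push_cast
    constructor
    · intro hs
      rw [← hs]
      simp only [if_true]
      have : ((y : ℝ) - home g K x) / (4 * (M g K : ℝ)) <
        ((y : ℝ) - home g K x + 1) / (4 * (M g K : ℝ)) := by
        apply div_lt_div_of_pos_right _ hM
        linarith
      linarith
    · intro hs
      have hs' : snk g K x = false := by
        rcases hk : snk g K x with _ | _
        · rfl
        · exact absurd hk.symm hs
      rw [hs']
      simp only [Bool.false_eq_true, if_false]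
      linarith

/-- the two kinds of vertical flow -/
theorem v_FV_cases {i j : ℕ} (hi : i < g) (hj : j < K) {x y : ℤ}
    (h : FV g K (i * K + j) x y ≠ 0) :
    (old g K i x ∧ 0 ≤ y ∧ y < M g K ∧
      ((FV g K (i * K + j) x y = 1 ∧ Rr g K i y = U g K i - 1 + aj g K i j) ∨
       (FV g K (i * K + j) x y = -1 ∧ Rr g K i y = U g K i - 1 - aj g K i j))) ∨
    (lf g K x ∧ birth g K x = i * K + j ∧ min (home g K x) (tip g K x) ≤ y ∧
      y < max (home g K x) (tip g K x) ∧
      FV g K (i * K + j) x y = if up g K x = snk g K x then 1 else -1) := by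
  rw [v_FV hi hj] at h ⊢
  rcases @v_FVc_cases g K i j hj x y with ⟨h1, -⟩ | ⟨h1, h2, h3, h4, h5⟩ | ⟨h1, h2, h3, h4, h5⟩
  · rcases @v_FVs_cases g K (i * K + j) x y with h2 | h2
    · rw [h1, h2] at h; exact absurd rfl h
    · rw [h1, zero_add]
      exact Or.inr h2
  · left
    rw [h1, v_FVs_zero (v_lf_not_old hj h2)]
    exact ⟨h2, h3, h4, Or.inl ⟨by norm_num, h5⟩⟩
  · left
    rw [h1, v_FVs_zero (v_lf_not_old hj h2)]
    exact ⟨h2, h3, h4, Or.inr ⟨by norm_num, h5⟩⟩

/-- field `V_pos` -/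
theorem V_pos (τ : ℕ) (x y : ℤ) (hτ : τ < g * K) (h : 0 < FV g K τ x y) :
    Xp g K τ x y < Xp g K τ x (y + 1) := by
  obtain ⟨i, j, hi, hj, rfl⟩ := h_split hτ
  rcases v_FV_cases hi hj h.ne' with ⟨h1, h2, h3, h4⟩ | ⟨h1, h2, h3, h4, h5⟩
  · rcases h4 with ⟨h4, h5⟩ | ⟨h4, h5⟩
    · have hl := lam_up hi hj h5
      rw [(v_Xp_old hi hj y h1).2 hl.1, (v_Xp_old hi hj (y + 1) h1).1 hl.2]
      exact v_s0_lt_psi hτ (v_old_range hi h1).1
    · rw [h4] at h; norm_num at h
  · apply (v_strand_lt h1 h2 h3 h4).1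
    by_contra hc
    rw [h5, if_neg hc] at h
    norm_num at h

/-- field `V_neg` -/
theorem V_neg (τ : ℕ) (x y : ℤ) (hτ : τ < g * K) (h : FV g K τ x y < 0) :
    Xp g K τ x (y + 1) < Xp g K τ x y := by
  obtain ⟨i, j, hi, hj, rfl⟩ := h_split hτ
  rcases v_FV_cases hi hj h.ne with ⟨h1, h2, h3, h4⟩ | ⟨h1, h2, h3, h4, h5⟩
  · rcases h4 with ⟨h4, h5⟩ | ⟨h4, h5⟩
    · rw [h4] at h; norm_num at h
    · have hl := lam_down hi hj h5
      rw [(v_Xp_old hi hj y h1).1 hl.1, (v_Xp_old hi hj (y + 1) h1).2 hl.2]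
      exact v_s0_lt_psi hτ (v_old_range hi h1).1
  · apply (v_strand_lt h1 h2 h3 h4).2
    intro hc
    rw [h5, if_pos hc] at h
    norm_num at h

/-- in an old column the potential is flat where there is no flow -/
theorem v_flat_old {i j : ℕ} (hi : i < g) (hj : j < K) {x y : ℤ} (h : old g K i x)
    (hy0 : 0 ≤ y) (hy1 : y < M g K) (hF : FV g K (i * K + j) x y = 0) :
    Xp g K (i * K + j) x y = Xp g K (i * K + j) x (y + 1) := by
  rw [v_FV hi hj, v_FVs_zero (v_lf_not_old hj h), add_zero] at hF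
  rcases @v_FVc_cases g K i j hj x y with ⟨-, h1⟩ | ⟨h1, -⟩ | ⟨h1, -⟩
  · obtain ⟨h2, h3⟩ := h1 h hy0 hy1
    have hl := lam_succ hi hj h2 h3
    by_cases hc : lam g K i j y
    · rw [(v_Xp_old hi hj y h).1 hc, (v_Xp_old hi hj (y + 1) h).1 (hl.1 hc)]
    · rw [(v_Xp_old hi hj y h).2 hc,
        (v_Xp_old hi hj (y + 1) h).2 (fun h' => hc (hl.2 h'))]
  · rw [hF] at h1; norm_num at h1
  · rw [hF] at h1; norm_num at h1

/-- the rows of the strand of a leaf -/
theorem v_strand_rows {x : ℤ} (h : lf g K x) : ∃ j0 ≤ (dat g K x).j,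
    newb g K (dat g K x).i j0 (home g K x) := H57B3.newb_of (h_isLeaf_dat h)

theorem v_strand_range {x y : ℤ} (h : lf g K x) (h1 : min (home g K x) (tip g K x) ≤ y)
    (h2 : y ≤ max (home g K x) (tip g K x)) : 0 ≤ y ∧ y < M g K := by
  obtain ⟨j0, hj0, hn⟩ := v_strand_rows h
  have hd := h_isLeaf_dat h
  rw [v_tipRow] at h1 h2
  exact strand_range hd.1 (lt_of_le_of_lt hj0 hd.2.1) hn h1 h2

/-- potential on a strand at later steps of the same generation -/
theorem v_Xp_later {i j j' : ℕ} (hi : i < g) (hj : j < K) (hj' : j' < j) {x y : ℤ}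
    (h : lf g K x) (hb : birth g K x = i * K + j')
    (h1 : min (home g K x) (tip g K x) ≤ y) (h2 : y ≤ max (home g K x) (tip g K x)) :
    Xp g K (i * K + j) x y = psi g K (i * K + j) x := by
  have hd := h_isLeaf_dat h
  have hi' : (dat g K x).i = i := by
    have := congrArg (· / K) hb
    simp only [birth, h_div hd.2.1, h_div (by omega : j' < K)] at this
    exact this
  have hj'' : (dat g K x).j = j' := by
    have := congrArg (· % K) hb
    simp only [birth, h_mod hd.2.1, h_mod (by omega : j' < K)] at this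
    exact this
  obtain ⟨j0, hj0, hn⟩ := v_strand_rows h
  rw [v_tipRow] at h1 h2
  rw [hi'] at hn h1 h2
  have hl := strand_lam hi hj (by omega : j0 < j) hn h1 h2
  have hX : Xp g K (i * K + j) x y = P0 g K i j x y := by
    unfold Xp
    rw [if_neg (fun h' => by have := h'.2.1; omega), h_div hj, h_mod hj]
  rw [hX]
  exact h_P0_lam hl.2 hl.1

/-- field `V_flat` -/
theorem V_flat (τ τ' : ℕ) (x y : ℤ) (hlt : τ' < τ) (hτ : τ < g * K)
    (h' : FV g K τ' x y ≠ 0) (h : FV g K τ x y = 0) :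
    Xp g K τ x y = Xp g K τ x (y + 1) := by
  obtain ⟨i, j, hi, hj, rfl⟩ := h_split hτ
  obtain ⟨i', j', hi', hj', rfl⟩ := h_split (hlt.trans hτ)
  have hii : i' < i ∨ (i' = i ∧ j' < j) := by
    rcases lt_trichotomy i' i with e | e | e
    · exact Or.inl e
    · subst e; right; exact ⟨rfl, by omega⟩
    · exfalso
      have : (i + 1) * K ≤ i' * K := Nat.mul_le_mul_right K e
      rw [add_mul] at this
      omega
  rcases v_FV_cases hi' hj' h' with ⟨h1, h2, h3, h4⟩ | ⟨h1, h2, h3, h4, h5⟩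
  · have ho : old g K i x := v_old_mono (by omega) (by omega) h1
    exact v_flat_old hi hj ho h2 h3 h
  · have hd := h_isLeaf_dat h1
    have hyr := v_strand_range h1 h3 h4.le
    have hid : (dat g K x).i = i' := by
      have := congrArg (· / K) h2
      simp only [birth, h_div hd.2.1, h_div hj'] at this
      exact this
    rcases hii with e | ⟨e, e'⟩
    · have ho : old g K i x := v_old_of_leaf hd (by omega) (by omega)
      exact v_flat_old hi hj ho hyr.1 hyr.2 h
    · subst e
      rw [v_Xp_later hi hj e' h1 h2 h3 h4.le,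
        v_Xp_later hi hj e' h1 h2 (y := y + 1) (by omega) (by omega)]

end RNB.B3
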